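import Pool.Agent.Helper984_CP.AffE

/-!
# Elementary commuting pairs of Euler number zero

A commuting pair in `HomK 0` lies in the path component of the trivial pair as soon as it is
topologically conjugate to a pair for which some primitive element is complex affine, or which is
real differentiable at a common fixed point with invertible derivatives, or which is asymptotic at
infinity to a pair of real linear isomorphisms.
-/

set_option autoImplicit false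

open Filter Topology Asymptotics
open Pool.Agent.Helper984_CP

namespace Pool.Agent.Results.MP_d32f96_gt.ElementaryClass

/-- Both members of `q` are homeomorphisms, and for some coprime integers `a`, `b` the element
`q.1 ^ a * q.2 ^ b` is of the form `z ↦ l * z + m` with `l ≠ 0`. -/
def AffineElement (q : C(ℂ, ℂ) × C(ℂ, ℂ)) : Prop :=
  ∃ F G : ℂ ≃ₜ ℂ, (∀ z, F z = q.1 z) ∧ (∀ z, G z = q.2 z) ∧
    ∃ (a b : ℤ) (l m : ℂ), IsCoprime a b ∧ l ≠ 0 ∧ ∀ z, (F ^ a * G ^ b) z = l * z + m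

/-- Both members of `q` fix the origin and have an invertible real derivative there. -/
def DiffAtZero (q : C(ℂ, ℂ) × C(ℂ, ℂ)) : Prop :=
  q.1 0 = 0 ∧ q.2 0 = 0 ∧ ∃ A B : ℂ ≃L[ℝ] ℂ,
    HasFDerivAt q.1 (A : ℂ →L[ℝ] ℂ) 0 ∧ HasFDerivAt q.2 (B : ℂ →L[ℝ] ℂ) 0

/-- Both members of `q` differ by `o(‖z‖)` at infinity from real linear isomorphisms. -/
def LinearAtInfinity (q : C(ℂ, ℂ) × C(ℂ, ℂ)) : Prop :=
  ∃ A B : ℂ ≃L[ℝ] ℂ, (fun z => q.1 z - A z) =o[cocompact ℂ] (fun z => z) ∧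
    (fun z => q.2 z - B z) =o[cocompact ℂ] (fun z => z)

/-- `p` is conjugate by a homeomorphism of the plane to a pair with one of the three properties. -/
def Elementary (p : C(ℂ, ℂ) × C(ℂ, ℂ)) : Prop :=
  ∃ (q : C(ℂ, ℂ) × C(ℂ, ℂ)) (H : ℂ ≃ₜ ℂ), (∀ z, p.1 (H z) = H (q.1 z)) ∧
    (∀ z, p.2 (H z) = H (q.2 z)) ∧ (AffineElement q ∨ DiffAtZero q ∨ LinearAtInfinity q)

theorem diff_bound {f : C(ℂ, ℂ)} (h0 : f 0 = 0) {A : ℂ ≃L[ℝ] ℂ}
    (h : HasFDerivAt f (A : ℂ →L[ℝ] ℂ) 0) {α β : ℂ} (hA : ∀ z, A z = linC α β z) :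
    ∀ ε > 0, ∃ d > 0, ∀ z : ℂ, ‖z‖ < d → ‖f z - linC α β z‖ ≤ ε * ‖z‖ := by
  intro ε hε
  have h1 := (hasFDerivAt_iff_isLittleO_nhds_zero.1 h).bound hε
  obtain ⟨d, hd, H⟩ := Metric.eventually_nhds_iff.1 h1
  refine ⟨d, hd, fun z hz => ?_⟩
  have h2 := H (y := z) (by rwa [dist_zero_right])
  rw [zero_add, h0, sub_zero] at h2
  rw [← hA]
  exact h2

theorem inf_bound {f : C(ℂ, ℂ)} {A : ℂ ≃L[ℝ] ℂ}
    (h : (fun z => f z - A z) =o[cocompact ℂ] (fun z => z)) {α β : ℂ}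
    (hA : ∀ z, A z = linC α β z) :
    ∀ ε > 0, ∃ C : ℝ, ∀ z : ℂ, ‖f z - linC α β z‖ ≤ ε * ‖z‖ + C := by
  intro ε hε
  have h1 := h.bound hε
  obtain ⟨K, hK, H⟩ := mem_cocompact.1 h1
  obtain ⟨C, hC⟩ := hK.exists_bound_of_continuousOn
    (f := fun z => f z - A z) (f.continuous.sub A.continuous).continuousOn
  refine ⟨max C 0, fun z => ?_⟩
  rw [← hA]
  by_cases hz : z ∈ K
  · have h2 := hC z hz
    have h3 := le_max_left C 0
    have h4 : 0 ≤ ε * ‖z‖ := by positivity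
    linarith
  · have h2 : ‖f z - A z‖ ≤ ε * ‖z‖ := H hz
    have h3 := le_max_right C 0
    linarith

theorem result (p : C(ℂ, ℂ) × C(ℂ, ℂ)) (hp : p ∈ HomK 0) (h : Elementary p) :
    JoinedIn (HomK 0) p (ContinuousMap.id ℂ, ContinuousMap.id ℂ) := by
  obtain ⟨q, H, h1, h2, hA | ⟨hf0, hg0, A, B, hA, hB⟩ | ⟨A, B, hA, hB⟩⟩ := h
  · exact elA_joined hp h1 h2 hA
  · obtain ⟨α, β, n1, e1⟩ := exists_linC A
    obtain ⟨γ, δ, n2, e2⟩ := exists_linC B
    exact el_joined hp h1 h2 (Or.inl ⟨α, β, γ, δ, n1, n2, diff_bound hf0 hA e1,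
      diff_bound hg0 hB e2⟩)
  · obtain ⟨α, β, n1, e1⟩ := exists_linC A
    obtain ⟨γ, δ, n2, e2⟩ := exists_linC B
    exact el_joined hp h1 h2 (Or.inr ⟨α, β, γ, δ, n1, n2, inf_bound hA e1, inf_bound hB e2⟩)

end Pool.Agent.Results.MP_d32f96_gt.ElementaryClass
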