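import Pool.Agent.Helper984_CP.Trans

/-!
# Commuting pairs with nonzero Euler number: the common fixed point splits off

For every nonzero integer `k`, every pair in `HomK k` has exactly one common fixed point, the
fixed point depends continuously on the pair, and conjugation by the translation that carries it
to the origin is a homeomorphism of `HomK k` onto the product of the plane and of the subspace
`HomK0 k` of pairs that fix the origin.
-/

set_option autoImplicit false

open Pool.Agent.Helper984_CP

namespace Pool.Agent.Results.MP_d32f96_gt.FixedPointSplitting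

theorem result (k : ℤ) (hk : k ≠ 0) :
    (∃ Φ : HomK k ≃ₜ ℂ × HomK0 k, ∀ p : HomK k,
      (∀ z : ℂ, (p.1.1 z = z ∧ p.1.2 z = z) ↔ z = (Φ p).1) ∧
      (∀ x : ℂ, (Φ p).2.1.1 x = p.1.1 (x + (Φ p).1) - (Φ p).1 ∧
        (Φ p).2.1.2 x = p.1.2 (x + (Φ p).1) - (Φ p).1)) ∧
    (IsPreconnected (HomK k) ↔ IsPreconnected (HomK0 k)) := by
  refine ⟨⟨splitHomeo hk, fun p => ⟨fun z => ⟨fun h => cfix_eq hk p h, ?_⟩, fun x => ⟨rfl, rfl⟩⟩⟩,
    HomK_preconnected_iff hk⟩
  rintro rfl
  exact cfix_spec hk p

end Pool.Agent.Results.MP_d32f96_gt.FixedPointSplitting
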