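import Pool.Agent.Helper984_CP.ContInv

/-!
# Commuting pairs which preserve a complementary domain of a nondegenerate continuum

Let `K` be a closed connected subset of the sphere with at least two points, and let both members
of a pair in `HomK k`, extended by `∞ ↦ ∞`, preserve one component of the complement of `K`. Then
`k = 0` and the pair lies in the connected component of the trivial pair.

This contains the case of an invariant plane continuum with at least two points (take the
component that contains `∞`), and the case of an invariant simply connected plane domain other
than the plane (take for `K` its complement in the sphere).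
-/

set_option autoImplicit false

open Pool.Agent.Helper984_CP

namespace Pool.Agent.Results.MP_d32f96_gt.InvariantDomain

theorem result (k : ℤ) (p : C(ℂ, ℂ) × C(ℂ, ℂ)) (hp : p ∈ HomK k) (K : Set (OnePoint ℂ))
    (hK : IsClosed K) (hKc : IsConnected K) (hKn : K.Nontrivial) (x : OnePoint ℂ) (hx : x ∉ K)
    (h1 : OnePoint.map p.1 '' connectedComponentIn Kᶜ x = connectedComponentIn Kᶜ x)
    (h2 : OnePoint.map p.2 '' connectedComponentIn Kᶜ x = connectedComponentIn Kᶜ x) :
    k = 0 ∧
      p ∈ connectedComponentIn (HomK 0) (ContinuousMap.id ℂ, ContinuousMap.id ℂ) :=
  continuum_inv hp hK hKc hKn hx h1 h2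

end Pool.Agent.Results.MP_d32f96_gt.InvariantDomain
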