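import Pool.Agent.Helper984_CP.AP8

/-!
# For every nonzero Euler number the space of commuting pairs is path connected

For every nonzero integer `k` the set `HomK k` is path connected, and every pair in it generates
an action of `ℤ²` in which some primitive element is topologically conjugate to `z ↦ z / 2`.
-/

set_option autoImplicit false

open Pool.Agent.Helper984_CP

namespace Pool.Agent.Results.MP_d32f96_gt.NonzeroConnected

theorem result (k : ℤ) (hk : k ≠ 0) :
    IsPathConnected (HomK k) ∧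
    ∀ p ∈ HomK k, ∃ (F G H : ℂ ≃ₜ ℂ) (a b : ℤ), (∀ z, F z = p.1 z) ∧ (∀ z, G z = p.2 z) ∧
      IsCoprime a b ∧ ∀ z, (F ^ a * G ^ b : ℂ ≃ₜ ℂ) (H z) = H (z / 2) := by
  refine ⟨HomK_pathConnected hk, fun p hp => ?_⟩
  obtain ⟨F, G, e⟩ := exists_homeos ⟨p, hp⟩
  simp only at e
  rw [e] at hp
  obtain ⟨a, b, hab, H, hH⟩ := hasC_all hp hk
  exact ⟨F, G, H, a, b, fun z => by rw [e]; rfl, fun z => by rw [e]; rfl, hab, hH⟩

end Pool.Agent.Results.MP_d32f96_gt.NonzeroConnected
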